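import Pool.Agent.Helper40.MR.Defs

/-!
# Module PA: choice of the parameters, part 1
-/

open Finset MeasureTheory
open scoped BigOperators Nat

namespace Pool.Agent.Helper40.MR

theorem pa_ge {y : ℝ} (hy : 4 ≤ y) (j : ℕ) : y * 4 ^ j ≤ y ^ (20 ^ j) := by
  have h1 : j + 1 ≤ 20 ^ j := by
    have := Nat.lt_pow_self (n := j) (show 1 < 20 by norm_num)
    omega
  have h2 : y ^ (j + 1) ≤ y ^ (20 ^ j) := pow_le_pow_right₀ (by linarith) h1
  have h3 : y * 4 ^ j ≤ y ^ (j + 1) := by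
    rw [pow_succ, mul_comm]
    gcongr
  exact h3.trans h2

theorem pa_succ (y : ℝ) (j : ℕ) : y ^ (20 ^ (j + 1)) = (y ^ (20 ^ j)) ^ 20 := by
  rw [← pow_mul, pow_succ]

theorem pa_succ2 (y : ℝ) (j : ℕ) : y ^ (2 * 20 ^ (j + 1)) = (y ^ (20 ^ j)) ^ 40 := by
  rw [← pow_mul, pow_succ]
  congr 1
  ring

theorem pa_logP (y : ℝ) (j : ℕ) : Real.log (Psc y j) = y ^ (20 ^ j) := by
  rw [Psc, Real.log_exp]

theorem pa_logQ1 (K y : ℝ) (j : ℕ) : Real.log (Qsc K y (j + 1)) = (y ^ (20 ^ j)) ^ 40 := by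
  rw [Qsc, if_neg (Nat.succ_ne_zero j), Real.log_exp, pa_succ2]

theorem pa_logQ {K y : ℝ} (hy : 4 ≤ y) (hK : 2 ≤ K) (hKy : K ≤ y) (j : ℕ) :
    0 < Real.log (Qsc K y j) ∧ Real.log (Qsc K y j) ≤ (y ^ (20 ^ j)) ^ 2 := by
  rcases j with _ | j
  · rw [Qsc, if_pos rfl, Real.log_exp]
    constructor
    · positivity
    · simp only [pow_zero, pow_one]
      nlinarith
  · rw [Qsc, if_neg (Nat.succ_ne_zero j), Real.log_exp, mul_comm 2, pow_mul]
    exact ⟨by positivity, le_rfl⟩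

theorem pa_A (η : ℝ) (j : ℕ) : Asc η (j + 1) - Asc η j = η * (1 / 2) ^ (j + 1) := by
  unfold Asc
  rw [pow_succ]
  ring

theorem pa_g {η y : ℝ} (hη : 0 < η) (hy : 4 ≤ y) (hyη : (664 / η) ^ 2 ≤ y) (K : ℝ) (j : ℕ) :
    4 * (Real.log (Real.log (Qsc K y (j + 1))) + 3) ≤
      (Asc η (j + 1) - Asc η j) * Real.log (Psc y j) := by
  rw [pa_A, pa_logP, pa_logQ1, Real.log_pow]
  have hge := pa_ge hy j
  set Y := y ^ (20 ^ j) with hY
  have hYpos : 0 < Y := by rw [hY]; positivity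
  have hw : 664 / η * 2 ^ j ≤ Real.sqrt Y := by
    apply Real.le_sqrt_of_sq_le
    calc (664 / η * 2 ^ j) ^ 2 = (664 / η) ^ 2 * 4 ^ j := by
          rw [mul_pow, ← pow_mul, mul_comm j 2, pow_mul]; norm_num
      _ ≤ y * 4 ^ j := by gcongr
      _ ≤ Y := hge
  set w := Real.sqrt Y with hwdef
  have hw2 : w * w = Y := Real.mul_self_sqrt hYpos.le
  have hwpos : 0 < w := Real.sqrt_pos.2 hYpos
  have hlog : Real.log Y ≤ 2 * w := by
    rw [← hw2, Real.log_mul hwpos.ne' hwpos.ne']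
    have := Real.log_le_sub_one_of_pos hwpos
    linarith
  have h1w : 1 ≤ w := by
    have : (1 : ℝ) ≤ Y := by
      have h4 : (1 : ℝ) ≤ 4 ^ j := one_le_pow₀ (by norm_num)
      nlinarith
    rw [hwdef]
    exact Real.one_le_sqrt.2 this
  have h2 : 332 ≤ η * (1 / 2) ^ (j + 1) * w := by
    have h3 : 664 * 2 ^ j ≤ η * w := by
      have := mul_le_mul_of_nonneg_left hw hη.le
      calc 664 * 2 ^ j = η * (664 / η * 2 ^ j) := by field_simp
        _ ≤ η * w := this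
    have h4 : ((1 : ℝ) / 2) ^ (j + 1) * 2 ^ j = 1 / 2 := by
      rw [pow_succ, mul_assoc, mul_comm (1 / 2 : ℝ), ← mul_assoc, ← mul_pow]
      norm_num
    calc (332 : ℝ) = (1 / 2) ^ (j + 1) * (664 * 2 ^ j) := by linear_combination (-664 : ℝ) * h4
      _ ≤ (1 / 2) ^ (j + 1) * (η * w) := by gcongr
      _ = η * (1 / 2) ^ (j + 1) * w := by ring
  have h5 : 332 * w ≤ η * (1 / 2) ^ (j + 1) * Y := by
    rw [← hw2, ← mul_assoc]
    exact mul_le_mul_of_nonneg_right h2 hwpos.le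
  push_cast
  linarith

theorem pa_two {K η y : ℝ} (hK : 2 ≤ K) (hη : 0 < η) (hy : 4 ≤ y) (hyc : 16 * K ^ 2 / η ^ 3 ≤ y) :
    (Hsc η y 0 * Real.log (Qsc K y 0) + 1) ^ 2 * (Psc y 0) ^ (-(2 * Asc η 0)) ≤
    Real.exp (-(η * y / 4)) := by
  have e1 : Hsc η y 0 = Real.exp (η * y / 4) := by simp [Hsc]
  have e2 : Real.log (Qsc K y 0) = K * y := by rw [Qsc, if_pos rfl, Real.log_exp]
  have e3 : (Psc y 0) ^ (-(2 * Asc η 0)) = Real.exp (-(2 * η * y)) := by
    rw [Psc, ← Real.exp_mul]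
    congr 1
    simp [Asc]
    ring
  rw [e1, e2, e3]
  have h1 : 1 ≤ Real.exp (η * y / 4) := Real.one_le_exp (by positivity)
  have h2 : (Real.exp (η * y / 4) * (K * y) + 1) ≤ 2 * K * y * Real.exp (η * y / 4) := by
    have h3 : 1 ≤ K * y := by nlinarith
    nlinarith [mul_le_mul h1 h3 zero_le_one (by positivity)]
  have h3 : 4 * K ^ 2 * y ^ 2 ≤ Real.exp (5 * η * y / 4) := by
    have h4 : (5 * η * y / 4) ^ 3 / (3 ! : ℕ) ≤ Real.exp (5 * η * y / 4) :=
      Real.pow_div_factorial_le_exp _ (by positivity) 3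
    refine le_trans ?_ h4
    have h5 : 16 * K ^ 2 ≤ y * η ^ 3 := by
      rwa [div_le_iff₀ (by positivity)] at hyc
    have h6 : ((3 ! : ℕ) : ℝ) = 6 := by norm_num [Nat.factorial]
    rw [h6]
    have h7 : 16 * K ^ 2 * y ^ 2 ≤ y * η ^ 3 * y ^ 2 := by gcongr
    nlinarith [h7]
  calc (Real.exp (η * y / 4) * (K * y) + 1) ^ 2 * Real.exp (-(2 * η * y))
      ≤ (2 * K * y * Real.exp (η * y / 4)) ^ 2 * Real.exp (-(2 * η * y)) := by
        gcongr
    _ = 4 * K ^ 2 * y ^ 2 * (Real.exp (η * y / 4) ^ 2 * Real.exp (-(2 * η * y))) := by ring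
    _ ≤ Real.exp (5 * η * y / 4) * (Real.exp (η * y / 4) ^ 2 * Real.exp (-(2 * η * y))) := by
        gcongr
    _ = Real.exp (-(η * y / 4)) := by
        rw [← Real.exp_nat_mul, ← Real.exp_add, ← Real.exp_add]
        congr 1
        push_cast
        ring

theorem pa_geom (J : ℕ) : ∑ j ∈ range J, (1 / 2 : ℝ) ^ j ≤ 2 := by
  have h : ∀ J : ℕ, ∑ j ∈ range J, (1 / 2 : ℝ) ^ j = 2 - 2 * (1 / 2) ^ J := by
    intro J
    induction J with
    | zero => simp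
    | succ J ih => rw [Finset.sum_range_succ, ih, pow_succ]; ring
  rw [h]
  have : (0 : ℝ) < (1 / 2) ^ J := by positivity
  linarith

theorem pa_three {η y : ℝ} (hη : 0 < η) (hη4 : η ≤ 1 / 4) (hy : 4 ≤ y) (J : ℕ) :
    ∑ j ∈ range (J + 1), (1 / Hsc η y j + 1 / Psc y j) ≤ 3 * Real.exp (-(η * y / 4)) := by
  have h1 : ∀ j ∈ range (J + 1), 1 / Hsc η y j + 1 / Psc y j ≤
      (3 / 2 * Real.exp (-(η * y / 4))) * (1 / 2) ^ j := by
    intro j _
    have e1 : 1 / Hsc η y j = Real.exp (-(η * y / 4)) * (1 / 2) ^ j := by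
      rw [Hsc, Real.exp_neg]
      rw [one_div, mul_inv, one_div, inv_pow]
      ring
    have e2 : 1 / Psc y j ≤ 1 / 2 * Real.exp (-(η * y / 4)) * (1 / 2) ^ j := by
      rw [Psc, one_div, ← Real.exp_neg]
      have h2 := pa_ge hy j
      have h3 : y * (j + 1) ≤ y ^ (20 ^ j) := by
        refine le_trans ?_ h2
        have h4 : (j : ℝ) + 1 ≤ 4 ^ j := by
          have := Nat.lt_pow_self (n := j) (show 1 < 4 by norm_num)
          exact_mod_cast this
        gcongr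
      have h5 : Real.exp (-(y ^ (20 ^ j))) ≤ Real.exp (-(η * y / 4)) * Real.exp (-1) ^ (j + 1) := by
        rw [← Real.exp_nat_mul, ← Real.exp_add]
        apply Real.exp_le_exp.2
        push_cast
        have hj : (0 : ℝ) ≤ j := Nat.cast_nonneg j
        nlinarith
      have h6 : Real.exp (-1) ≤ 1 / 2 := by
        rw [Real.exp_neg, one_div]
        apply inv_anti₀ (by norm_num)
        have := Real.add_one_le_exp 1
        linarith
      calc Real.exp (-(y ^ (20 ^ j))) ≤ Real.exp (-(η * y / 4)) * Real.exp (-1) ^ (j + 1) := h5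
        _ ≤ Real.exp (-(η * y / 4)) * (1 / 2) ^ (j + 1) := by gcongr
        _ = 1 / 2 * Real.exp (-(η * y / 4)) * (1 / 2) ^ j := by rw [pow_succ]; ring
    rw [e1]
    linarith
  refine (Finset.sum_le_sum h1).trans ?_
  rw [← Finset.mul_sum]
  have := pa_geom (J + 1)
  have h7 : 0 < Real.exp (-(η * y / 4)) := Real.exp_pos _
  nlinarith

theorem pa_term {K η y : ℝ} (hK : 2 ≤ K) (hη : 0 < η) (hη4 : η ≤ 1 / 4) (hy : 4 ≤ y) (hKy : K ≤ y)
    (hyη : (664 / η) ^ 2 ≤ y) (j : ℕ) :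
    (Hsc η y (j + 1) * Real.log (Qsc K y (j + 1)) + 1) ^ 2 *
      (Hsc η y j * Real.log (Qsc K y j) + 1) *
      Real.exp (-((Asc η (j + 1) - Asc η j) * Real.log (Psc y (j + 1))) +
        2 * Asc η j * Real.log (Qsc K y j) +
        2 * Real.log (Real.log (Qsc K y (j + 1)))) ≤ Real.exp (-(η * y / 4)) * (1 / 2) ^ (j + 1) := by
  obtain ⟨hL0, hL⟩ := pa_logQ hy hK hKy j
  rw [pa_A, pa_logP, pa_logQ1, pa_succ]
  have hge := pa_ge hy j
  set Y := y ^ (20 ^ j) with hY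
  set L := Real.log (Qsc K y j) with hLdef
  have h4j : (1 : ℝ) ≤ 4 ^ j := one_le_pow₀ (by norm_num)
  have h2j : (2 : ℝ) ^ j ≤ 4 ^ j := by gcongr; norm_num
  have hY1 : 1 ≤ Y := by nlinarith
  have hyY : y ≤ Y := by nlinarith
  have h4Y : (4 : ℝ) ^ j ≤ Y := by nlinarith
  have hY0 : 0 < Y := by linarith
  have hE1 : 1 ≤ Real.exp (η * y / 4) := Real.one_le_exp (by positivity)
  have e1 : Hsc η y (j + 1) = 2 * 2 ^ j * Real.exp (η * y / 4) := by rw [Hsc, pow_succ]; ring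
  have e2 : Hsc η y j = 2 ^ j * Real.exp (η * y / 4) := rfl
  rw [e1, e2]
  have h2j1 : (1 : ℝ) ≤ 2 ^ j := one_le_pow₀ (by norm_num)
  set E := Real.exp (η * y / 4) with hE
  have hE0 : 0 < E := by linarith
  -- the polynomial factors
  have h1 : 2 * 2 ^ j * E * Y ^ 40 + 1 ≤ 4 * 2 ^ j * E * Y ^ 40 := by
    have : 1 ≤ 2 ^ j * E * Y ^ 40 := by
      have h3 : (1 : ℝ) ≤ Y ^ 40 := one_le_pow₀ hY1
      have h4 : (1 : ℝ) ≤ 2 ^ j * E := one_le_mul_of_one_le_of_one_le h2j1 hE1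
      exact one_le_mul_of_one_le_of_one_le h4 h3
    linarith
  have h2 : 2 ^ j * E * L + 1 ≤ 2 * 2 ^ j * E * Y ^ 2 := by
    have h3 : 2 ^ j * E * L ≤ 2 ^ j * E * Y ^ 2 := by gcongr
    have h4 : (1 : ℝ) ≤ 2 ^ j * E * Y ^ 2 := one_le_mul_of_one_le_of_one_le
      (one_le_mul_of_one_le_of_one_le h2j1 hE1) (one_le_pow₀ hY1)
    linarith
  have h3 : (2 * 2 ^ j * E * Y ^ 40 + 1) ^ 2 * (2 ^ j * E * L + 1) ≤
      32 * 8 ^ j * E ^ 3 * Y ^ 82 := by
    calc (2 * 2 ^ j * E * Y ^ 40 + 1) ^ 2 * (2 ^ j * E * L + 1)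
        ≤ (4 * 2 ^ j * E * Y ^ 40) ^ 2 * (2 * 2 ^ j * E * Y ^ 2) := by gcongr
      _ = 32 * (2 ^ j) ^ 3 * E ^ 3 * Y ^ 82 := by ring
      _ = 32 * 8 ^ j * E ^ 3 * Y ^ 82 := by
          rw [← pow_mul, mul_comm j 3, pow_mul]; norm_num
  -- the exponential factor
  have h4 : Real.exp (2 * Real.log (Y ^ 40)) = Y ^ 80 := by
    rw [show (2 : ℝ) * Real.log (Y ^ 40) = ((2 : ℕ) : ℝ) * Real.log (Y ^ 40) by norm_num,
      Real.exp_nat_mul, Real.exp_log (by positivity)]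
    ring
  have h5 : 2 * Asc η j * L ≤ Y ^ 2 := by
    have h6 : Asc η j ≤ 1 / 2 := by
      unfold Asc
      have : (0 : ℝ) ≤ (1 / 2) ^ j := by positivity
      nlinarith
    nlinarith
  have h6 : η * y / 2 * Y ^ 19 ≤ η * (1 / 2) ^ (j + 1) * Y ^ 20 := by
    have h7 : y * 2 ^ j ≤ Y := by nlinarith
    have h8 : ((1 : ℝ) / 2) ^ (j + 1) * 2 ^ j = 1 / 2 := by
      rw [pow_succ, mul_assoc, mul_comm (1 / 2 : ℝ), ← mul_assoc, ← mul_pow]
      norm_num
    calc η * y / 2 * Y ^ 19 = η * (1 / 2) ^ (j + 1) * ((y * 2 ^ j) * Y ^ 19) := by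
          linear_combination (-(η * y * Y ^ 19)) * h8
      _ ≤ η * (1 / 2) ^ (j + 1) * (Y * Y ^ 19) := by gcongr
      _ = η * (1 / 2) ^ (j + 1) * Y ^ 20 := by ring
  have h7 : Real.exp (-(η * (1 / 2) ^ (j + 1) * Y ^ 20) + 2 * Asc η j * L + 2 * Real.log (Y ^ 40)) ≤
      Real.exp (Y ^ 2 - η * y / 2 * Y ^ 19) * Y ^ 80 := by
    rw [Real.exp_add, h4]
    gcongr
    linarith
  -- the main inequality
  have h8 : 64 * 16 ^ j * E ^ 4 * Y ^ 162 ≤ Real.exp (η * y / 2 * Y ^ 19 - Y ^ 2) := by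
    have h9 : (64 : ℝ) ≤ Real.exp 64 := by
      have := Real.add_one_le_exp (64 : ℝ); linarith
    have h10 : Y ≤ Real.exp Y := by
      have := Real.add_one_le_exp Y; linarith
    have h11 : E ^ 4 = Real.exp (η * y) := by
      rw [hE, ← Real.exp_nat_mul]; congr 1; push_cast; ring
    have h12 : (16 : ℝ) ^ j ≤ Y ^ 2 := by
      calc (16 : ℝ) ^ j = (4 ^ j) ^ 2 := by rw [← pow_mul, mul_comm j 2, pow_mul]; norm_num
        _ ≤ Y ^ 2 := by gcongr
    have h13 : 460 ≤ η * y := by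
      have h14 : 460 / η ≤ (664 / η) ^ 2 := by
        rw [div_pow, div_le_div_iff₀ hη (by positivity)]
        nlinarith [mul_pos hη hη]
      have h15 : 460 / η ≤ y := h14.trans hyη
      rw [div_le_iff₀ hη] at h15
      linarith
    calc 64 * 16 ^ j * E ^ 4 * Y ^ 162 ≤ Real.exp 64 * Y ^ 2 * Real.exp (η * y) * Y ^ 162 := by
          rw [h11]; gcongr
      _ = Real.exp 64 * Real.exp (η * y) * Y ^ 164 := by ring
      _ ≤ Real.exp 64 * Real.exp (η * y) * Real.exp Y ^ 164 := by gcongr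
      _ = Real.exp (64 + η * y + 164 * Y) := by
          rw [← Real.exp_nat_mul, ← Real.exp_add, ← Real.exp_add]; push_cast; rfl
      _ ≤ Real.exp (η * y / 2 * Y ^ 19 - Y ^ 2) := by
          apply Real.exp_le_exp.2
          have h16 : η * y ≤ Y := by nlinarith
          have h17 : Y ≤ Y ^ 2 := by nlinarith
          have h18 : Y ^ 2 ≤ Y ^ 19 := pow_le_pow_right₀ hY1 (by norm_num)
          have h19 : 230 * Y ^ 19 ≤ η * y / 2 * Y ^ 19 := by
            have : (0 : ℝ) ≤ Y ^ 19 := by positivity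
            nlinarith
          nlinarith
  calc (2 * 2 ^ j * E * Y ^ 40 + 1) ^ 2 * (2 ^ j * E * L + 1) *
      Real.exp (-(η * (1 / 2) ^ (j + 1) * Y ^ 20) + 2 * Asc η j * L + 2 * Real.log (Y ^ 40))
      ≤ (32 * 8 ^ j * E ^ 3 * Y ^ 82) * (Real.exp (Y ^ 2 - η * y / 2 * Y ^ 19) * Y ^ 80) := by
        gcongr
    _ = (64 * 16 ^ j * E ^ 4 * Y ^ 162) * Real.exp (Y ^ 2 - η * y / 2 * Y ^ 19) *
          (E⁻¹ * (1 / 2) ^ (j + 1)) := by
        have h20 : (16 : ℝ) ^ j = 8 ^ j * 2 ^ j := by rw [← mul_pow]; norm_num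
        have h21 : ((1 : ℝ) / 2) ^ (j + 1) * 2 ^ j = 1 / 2 := by
          rw [pow_succ, mul_assoc, mul_comm (1 / 2 : ℝ), ← mul_assoc, ← mul_pow]
          norm_num
        have h22 : E ^ 4 * E⁻¹ = E ^ 3 := by field_simp
        rw [h20]
        calc _ = 32 * 8 ^ j * (E ^ 3) * Y ^ 162 * Real.exp (Y ^ 2 - η * y / 2 * Y ^ 19) := by ring
          _ = 32 * 8 ^ j * (E ^ 4 * E⁻¹) * Y ^ 162 * Real.exp (Y ^ 2 - η * y / 2 * Y ^ 19) *
              (2 * ((1 / 2) ^ (j + 1) * 2 ^ j)) := by rw [h21, h22]; ring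
          _ = _ := by ring
    _ ≤ Real.exp (η * y / 2 * Y ^ 19 - Y ^ 2) * Real.exp (Y ^ 2 - η * y / 2 * Y ^ 19) *
          (E⁻¹ * (1 / 2) ^ (j + 1)) := by gcongr
    _ = Real.exp (-(η * y / 4)) * (1 / 2) ^ (j + 1) := by
        rw [← Real.exp_add, hE, ← Real.exp_neg]
        have : η * y / 2 * Y ^ 19 - Y ^ 2 + (Y ^ 2 - η * y / 2 * Y ^ 19) = 0 := by ring
        rw [this, Real.exp_zero, one_mul]

/-- **Module PA.** -/
theorem st_PA : ST_PA := by
  intro K η hK hη hη4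
  refine ⟨K + (664 / η) ^ 2 + 16 * K ^ 2 / η ^ 3 + 4, fun y hy0 => ?_⟩
  have p1 : 0 ≤ (664 / η) ^ 2 := by positivity
  have p2 : 0 ≤ 16 * K ^ 2 / η ^ 3 := by positivity
  have hy : 4 ≤ y := by linarith
  have hKy : K ≤ y := by linarith
  have hyη : (664 / η) ^ 2 ≤ y := by linarith
  have hyc : 16 * K ^ 2 / η ^ 3 ≤ y := by linarith
  refine ⟨fun j => ?_, pa_two hK hη hy hyc, fun J => pa_three hη hη4 hy J, fun J => ?_⟩
  · have hge := pa_ge hy j
    have h4j : (1 : ℝ) ≤ 4 ^ j := one_le_pow₀ (by norm_num)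
    have hY : 4 ≤ y ^ (20 ^ j) := by nlinarith
    refine ⟨?_, ?_, ?_, ?_, ?_, ?_, pa_g hη hy hyη K j⟩
    · rw [pa_logP]; linarith
    · rcases j with _ | j
      · rw [Psc, Qsc, if_pos rfl]
        apply Real.exp_lt_exp.2
        simp only [pow_zero, pow_one]
        nlinarith
      · rw [Psc, Qsc, if_neg (Nat.succ_ne_zero j)]
        apply Real.exp_lt_exp.2
        rw [mul_comm 2, pow_mul]
        nlinarith
    · unfold Hsc
      exact one_le_mul_of_one_le_of_one_le (one_le_pow₀ (by norm_num)) (Real.one_le_exp (by positivity))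
    · rcases j with _ | j
      · rw [Psc, Qsc, if_pos rfl]
        apply Real.exp_le_exp.2
        simp only [zero_add, pow_one]
        have h1 : y ^ 2 ≤ y ^ 20 := pow_le_pow_right₀ (by linarith) (by norm_num)
        nlinarith
      · rw [Psc, Qsc, if_neg (Nat.succ_ne_zero j)]
        apply Real.exp_le_exp.2
        apply pow_le_pow_right₀ (by linarith)
        rw [pow_succ 20 (j + 1)]
        omega
    · have := pa_A η j
      have h1 : 0 < η * (1 / 2) ^ (j + 1) := by positivity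
      linarith
    · unfold Asc
      have : (0 : ℝ) ≤ (1 / 2) ^ (j + 1) := by positivity
      nlinarith
  · refine (Finset.sum_le_sum fun j _ => pa_term hK hη hη4 hy hKy hyη j).trans ?_
    rw [← Finset.mul_sum]
    have h1 : ∑ j ∈ range J, (1 / 2 : ℝ) ^ (j + 1) ≤ 1 := by
      have h2 := pa_geom J
      have h3 : ∑ j ∈ range J, (1 / 2 : ℝ) ^ (j + 1) = 1 / 2 * ∑ j ∈ range J, (1 / 2 : ℝ) ^ j := by
        rw [Finset.mul_sum]
        exact Finset.sum_congr rfl fun j _ => by rw [pow_succ]; ring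
      rw [h3]
      linarith
    have h4 : 0 < Real.exp (-(η * y / 4)) := Real.exp_pos _
    nlinarith

end Pool.Agent.Helper40.MR
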